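import Pool.Agent.Kin.Scales

/-!
# Weak disorder, `d ≥ 3`: all approximate eigenfunctions spread beyond the kinetic scale `λ⁻²`
-/

open Real MeasureTheory ProbabilityTheory

noncomputable section

namespace Pool.Agent.APS.Old.BeyondKinetic

/-- The Anderson Hamiltonian `H = -Δ + λ v` acting on functions on `ℤ^d`. -/
def ham {d : ℕ} (lam : ℝ) (v : (Fin d → ℤ) → ℝ) (ψ : (Fin d → ℤ) → ℂ) (x : Fin d → ℤ) : ℂ :=
  ∑ j : Fin d, (2 * ψ x - ψ (x + Pi.single j 1) - ψ (x - Pi.single j 1)) +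
    ((lam * v x : ℝ) : ℂ) * ψ x

/-- The mass of `ψ` in the cube of radius `r` around `x`. -/
def mass {d : ℕ} (x : Fin d → ℤ) (r : ℕ) (ψ : (Fin d → ℤ) → ℂ) : ℝ :=
  ∑ y ∈ Fintype.piFinset fun j => Finset.Icc (x j - r) (x j + r), ‖ψ y‖ ^ 2

/-- Independent, identically distributed random variables `ω x`, `x ∈ ℤ^d`, with `|ω x| ≤ M`
almost surely and variance at least `v`. -/
structure IIDBounded {d : ℕ} {Ω : Type} [MeasurableSpace Ω] (P : Measure Ω) (M v : ℝ)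
    (ω : (Fin d → ℤ) → Ω → ℝ) : Prop where
  indep : iIndepFun ω P
  ident : ∀ x, IdentDistrib (ω x) (ω 0) P P
  bdd : ∀ x, ∀ᵐ s ∂P, |ω x s| ≤ M
  var : v ≤ ∫ s, (ω 0 s - ∫ s', ω 0 s' ∂P) ^ 2 ∂P

/-- The mass of `ψ` in the cube of radius `⌈λ⁻¹⁰⌉` around `x`, plus `λ⁻⁶` times the mass of
`(H - E)ψ` there. -/
def far {d : ℕ} (lam : ℝ) (v : (Fin d → ℤ) → ℝ) (E : ℝ) (x : Fin d → ℤ)
    (ψ : (Fin d → ℤ) → ℂ) : ℝ :=
  mass x ⌈(1 / lam) ^ 10⌉₊ ψ +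
    (1 / lam) ^ 6 * mass x ⌈(1 / lam) ^ 10⌉₊ (fun y => ham lam v ψ y - E * ψ y)

open Classical in
/-- The growth factor: `r` when the energy `E` has distance at least `δ` from the critical
energies `0, 4, ..., 4d` of the free operator, `r²` in general. -/
def growth (d : ℕ) (δ E : ℝ) (r : ℕ) : ℝ :=
  if ∀ i : ℕ, i ≤ d → δ ≤ |E - 4 * i| then r else (r : ℝ) ^ 2

theorem result (d : ℕ) (hd : 3 ≤ d) (δ M v : ℝ) (hδ : 0 < δ) (hv : 0 < v) (K : ℕ) :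
    ∃ κ lam0 : ℝ, 0 < κ ∧ 0 < lam0 ∧ ∀ (Ω : Type) [MeasurableSpace Ω] (P : Measure Ω)
      [IsProbabilityMeasure P] (ω : (Fin d → ℤ) → Ω → ℝ), IIDBounded P M v ω →
      ∀ lam : ℝ, 0 < lam → lam ≤ lam0 →
      ∃ G : Set Ω, MeasurableSet G ∧ P Gᶜ ≤ ENNReal.ofReal (lam ^ K) ∧
      ∀ s ∈ G, ∀ x : Fin d → ℤ, (∀ j, |(x j : ℝ)| ≤ (1 / lam) ^ K) →
        ∀ E : ℝ, δ ≤ E → E ≤ 4 * d - δ → ∀ r : ℕ, 1 ≤ r → (r : ℝ) ≤ (1 / lam) ^ (2 + κ) →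
        ∀ ψ : (Fin d → ℤ) → ℂ,
        mass x r ψ ≤ lam ^ κ * min 1 (lam ^ 2 * growth d δ E r) *
          far lam (fun z => ω z s) E x ψ := by
  obtain ⟨κ, lam0, hκ, hlam0, h1⟩ := Pool.Agent.Kin.scalesK d hd δ M v hδ hv K
  exact ⟨κ, lam0, hκ, hlam0, fun Ω _ P _ ω h lam h0 hle =>
    h1 Ω P ω h.indep h.ident h.bdd h.var lam h0 hle⟩

end Pool.Agent.APS.Old.BeyondKinetic
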